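import Pool.Agent.TH21.MS.H3
import Pool.Agent.TH818.AP.Mv2

/-!
# Polynomials at `π` and numbers of very different sizes
-/

set_option autoImplicit false

open Set Filter

namespace Pool.Agent.TH21.CM

/-- the measure of `π` for all heights `exp h`, `h ≥ log 2` -/
theorem pi_meas (d : ℕ) : ∃ B : ℝ, 0 ≤ B ∧ ∀ h : ℝ, Real.log 2 ≤ h → ∀ c : Fin (d + 1) → ℤ, c ≠ 0 →
    (∀ e, |(c e : ℝ)| ≤ Real.exp h) → Real.exp (-B * h) ≤ |∑ e, (c e : ℝ) * Real.pi ^ (e : ℕ)| := by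
  obtain ⟨B0, T0, hT⟩ := TH818.AP.goodConst_pi d 1
  have hl2 : 0 < Real.log 2 := Real.log_pos (by norm_num)
  set t1 : ℝ := |Real.log (max T0 1)| with ht1
  have ht1nn : 0 ≤ t1 := abs_nonneg _
  refine ⟨|B0| * (1 + t1 / Real.log 2), by positivity, ?_⟩
  intro h hh c hc hce
  have hh0 : 0 < h := hl2.trans_le hh
  have hT1 : T0 ≤ Real.exp (h + t1) := by
    have h1 : T0 ≤ max T0 1 := le_max_left _ _
    have h2 : 0 < max T0 1 := lt_max_of_lt_right one_pos
    have h3 : max T0 1 = Real.exp (Real.log (max T0 1)) := (Real.exp_log h2).symm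
    have h4 : Real.log (max T0 1) ≤ t1 := le_abs_self _
    calc T0 ≤ Real.exp (Real.log (max T0 1)) := by rw [← h3]; exact h1
      _ ≤ Real.exp (h + t1) := Real.exp_le_exp.2 (by linarith)
  have key := hT (Real.exp (h + t1)) hT1 c hc (fun e => by
    rw [Real.rpow_one]
    exact (hce e).trans (Real.exp_le_exp.2 (by linarith)))
  refine le_trans ?_ key
  rw [← Real.exp_mul]
  refine Real.exp_le_exp.2 ?_
  have h5 : t1 ≤ t1 / Real.log 2 * h := by
    have h6 : 1 ≤ h / Real.log 2 := by rwa [one_le_div hl2]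
    have h7 : t1 / Real.log 2 * h = t1 * (h / Real.log 2) := by ring
    rw [h7]
    exact le_mul_of_one_le_right ht1nn h6
  have h8 : h + t1 ≤ (1 + t1 / Real.log 2) * h := by linarith
  have h9 : 0 ≤ h + t1 := by linarith
  have h10 : B0 * (h + t1) ≤ |B0| * (h + t1) := mul_le_mul_of_nonneg_right (le_abs_self _) h9
  have h11 : |B0| * (h + t1) ≤ |B0| * ((1 + t1 / Real.log 2) * h) := mul_le_mul_of_nonneg_left h8 (abs_nonneg _)
  nlinarith

/-- the exponent vector -/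
noncomputable def sP {m d : ℕ} (e : (Fin m → Fin (d + 1)) × Fin (d + 1)) : Option (Fin m) →₀ ℕ :=
  Finsupp.equivFunOnFinite.symm fun x => match x with
    | none => (e.2 : ℕ)
    | some y => (e.1 y : ℕ)

theorem sP_inj {m d : ℕ} : Function.Injective (sP (m := m) (d := d)) := by
  intro e e' h
  refine Prod.ext ?_ ?_
  · funext j
    have := DFunLike.congr_fun h (some j)
    exact Fin.ext (by simpa [sP] using this)
  · have := DFunLike.congr_fun h none
    exact Fin.ext (by simpa [sP] using this)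

theorem aeval_eqP {m d : ℕ} (f : Option (Fin m) → ℂ) (P : MvPolynomial (Option (Fin m)) ℤ)
    (hP : ∀ x, P.degreeOf x ≤ d) : MvPolynomial.aeval f P =
      ∑ e : (Fin m → Fin (d + 1)) × Fin (d + 1), ((P.coeff (sP e) : ℤ) : ℂ) *
        ((∏ j, f (some j) ^ (e.1 j : ℕ)) * f none ^ (e.2 : ℕ)) := by
  have h1 : ∀ e : (Fin m → Fin (d + 1)) × Fin (d + 1),
      (∏ j, f (some j) ^ (e.1 j : ℕ)) * f none ^ (e.2 : ℕ) = ∏ x, f x ^ (sP e x) := by
    intro e
    rw [Fintype.prod_option, mul_comm]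
    simp [sP]
  simp only [h1]
  rw [MvPolynomial.aeval_def, MvPolynomial.eval₂_eq']
  rw [← Finset.sum_image (f := fun u : Option (Fin m) →₀ ℕ => ((P.coeff u : ℤ) : ℂ) * ∏ x, f x ^ (u x))
    (fun a _ b _ hab => sP_inj hab)]
  refine Finset.sum_subset_zero_on_sdiff ?_ ?_ ?_
  · intro u hu
    rw [Finset.mem_image]
    have hle : ∀ x, u x < d + 1 := fun x =>
      Nat.lt_succ_of_le ((MvPolynomial.monomial_le_degreeOf x hu).trans (hP x))
    refine ⟨(fun j => ⟨u (some j), hle _⟩, ⟨u none, hle _⟩), Finset.mem_univ _, ?_⟩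
    ext x
    cases x <;> simp [sP]
  · intro u hu
    rw [Finset.mem_sdiff, MvPolynomial.notMem_support_iff] at hu
    rw [hu.2]
    simp
  · intro u _
    simp

theorem exists_coeffP {m d : ℕ} (P : MvPolynomial (Option (Fin m)) ℤ) (hP0 : P ≠ 0)
    (hP : ∀ x, P.degreeOf x ≤ d) :
    ∃ e : (Fin m → Fin (d + 1)) × Fin (d + 1), P.coeff (sP e) ≠ 0 := by
  obtain ⟨u, hu⟩ := MvPolynomial.ne_zero_iff.1 hP0
  have hle : ∀ x, u x < d + 1 := fun x =>
    Nat.lt_succ_of_le ((MvPolynomial.monomial_le_degreeOf x (MvPolynomial.mem_support_iff.2 hu)).trans (hP x))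
  refine ⟨(fun j => ⟨u (some j), hle _⟩, ⟨u none, hle _⟩), ?_⟩
  have he : sP ((fun j => ⟨u (some j), hle _⟩, ⟨u none, hle _⟩) :
      (Fin m → Fin (d + 1)) × Fin (d + 1)) = u := by
    ext x
    cases x <;> simp [sP]
  rw [he]
  exact hu

/-- the size argument -/
theorem core (m d : ℕ) (K : ℝ) (hK : 0 ≤ K) : ∃ B X : ℝ, 0 ≤ X ∧ ∀ h : ℝ, Real.log 2 ≤ h →
    ∀ (L w : Fin m → ℝ) (ε : Fin m → ℂ), (∀ k, 0 < w k) → (∀ k, |Real.log (w k) - L k| ≤ K) →
    (∀ k, 0 ≤ L k) → (∀ k, ‖ε k‖ = 1) →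
    (∀ c : Fin m → ℤ, c ≠ 0 → (∀ k, |c k| ≤ d) → X * h < |∑ k, (c k : ℝ) * L k|) →
    ∀ P : MvPolynomial (Option (Fin m)) ℤ, P ≠ 0 → (∀ i, P.degreeOf i ≤ d) →
    (∀ e, |((P.coeff e : ℤ) : ℝ)| ≤ Real.exp h) →
    Real.exp (-B * h) < ‖MvPolynomial.aeval (fun i : Option (Fin m) => i.elim (Real.pi : ℂ) fun k => ε k * (w k : ℂ)) P‖ := by
  classical
  obtain ⟨B0, hB0, hpi⟩ := pi_meas d
  have hl2 : 0 < Real.log 2 := Real.log_pos (by norm_num)
  set M : ℝ := (m : ℝ) * d * K with hM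
  have hMnn : 0 ≤ M := by positivity
  set q : ℝ := Real.log (2 * ((d : ℝ) + 1) ^ m * (((d : ℝ) + 1) * 4 ^ d)) + 2 * M with hq
  have hd1 : (1 : ℝ) ≤ (d : ℝ) + 1 := by
    have : (0 : ℝ) ≤ d := Nat.cast_nonneg d
    linarith
  have hQ1 : 1 ≤ 2 * ((d : ℝ) + 1) ^ m * (((d : ℝ) + 1) * 4 ^ d) := by
    have h1 : (1 : ℝ) ≤ ((d : ℝ) + 1) ^ m := one_le_pow₀ hd1
    have h2 : (1 : ℝ) ≤ 4 ^ d := one_le_pow₀ (by norm_num)
    have h3 : (1 : ℝ) ≤ ((d : ℝ) + 1) * 4 ^ d := by nlinarith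
    nlinarith
  have hqnn : 0 ≤ q := by
    have := Real.log_nonneg hQ1
    rw [hq]
    linarith
  refine ⟨B0 + (M + Real.log 2) / Real.log 2 + 1, 1 + B0 + q / Real.log 2, by positivity, ?_⟩
  intro h hh L w ε hw hwL hL hε hc P hP0 hPd hPc
  have hh0 : 0 < h := hl2.trans_le hh
  -- the coefficients
  set pc : (Fin m → Fin (d + 1)) → Fin (d + 1) → ℤ := fun a l => P.coeff (sP (a, l)) with hpc
  set pa : (Fin m → Fin (d + 1)) → ℝ := fun a => ∑ l, (pc a l : ℝ) * Real.pi ^ (l : ℕ) with hpa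
  set Ma : (Fin m → Fin (d + 1)) → ℂ := fun a => ∏ k, (ε k * (w k : ℂ)) ^ (a k : ℕ) with hMa
  have hval : MvPolynomial.aeval (fun i : Option (Fin m) => i.elim (Real.pi : ℂ) fun k => ε k * (w k : ℂ)) P =
      ∑ a, (pa a : ℂ) * Ma a := by
    rw [aeval_eqP _ P hPd, Fintype.sum_prod_type]
    refine Finset.sum_congr rfl fun a _ => ?_
    simp only [hpa, hMa, hpc]
    push_cast
    rw [Finset.sum_mul]
    refine Finset.sum_congr rfl fun l _ => ?_
    simp only [Option.elim_some, Option.elim_none]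
    ring
  have hup : ∀ a, |pa a| ≤ ((d : ℝ) + 1) * 4 ^ d * Real.exp h := by
    intro a
    have h4 : Real.pi ≤ 4 := Real.pi_le_four
    calc |pa a| ≤ ∑ l : Fin (d + 1), |(pc a l : ℝ) * Real.pi ^ (l : ℕ)| := Finset.abs_sum_le_sum_abs _ _
      _ ≤ ∑ _l : Fin (d + 1), Real.exp h * 4 ^ d := by
          refine Finset.sum_le_sum fun l _ => ?_
          rw [abs_mul, abs_of_pos (pow_pos Real.pi_pos _)]
          refine mul_le_mul (hPc _) ?_ (pow_nonneg Real.pi_pos.le _) (Real.exp_pos _).le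
          calc Real.pi ^ (l : ℕ) ≤ 4 ^ (l : ℕ) := pow_le_pow_left₀ Real.pi_pos.le h4 _
            _ ≤ 4 ^ d := pow_le_pow_right₀ (by norm_num) (Nat.lt_succ_iff.1 l.2)
      _ = ((d : ℝ) + 1) * 4 ^ d * Real.exp h := by
          simp
          ring
  have hlow : ∀ a, pc a ≠ 0 → Real.exp (-B0 * h) ≤ |pa a| := fun a ha =>
    hpi h hh (pc a) ha fun e => hPc _
  have hzero : ∀ a, pc a = 0 → pa a = 0 := by
    intro a ha
    simp [hpa, ha]
  -- the sizes of the monomials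
  set Λ : (Fin m → Fin (d + 1)) → ℝ := fun a => ∑ k, ((a k : ℕ) : ℝ) * L k with hΛ
  have hnorm : ∀ a, ‖Ma a‖ = Real.exp (∑ k, ((a k : ℕ) : ℝ) * Real.log (w k)) := by
    intro a
    simp only [hMa]
    rw [norm_prod, Real.exp_sum]
    refine Finset.prod_congr rfl fun k _ => ?_
    rw [norm_pow, norm_mul, hε k, one_mul, Complex.norm_real, Real.norm_eq_abs, abs_of_pos (hw k),
      ← Real.log_pow, Real.exp_log (pow_pos (hw k) _)]
  have hdiff : ∀ a : Fin m → Fin (d + 1), |∑ k, ((a k : ℕ) : ℝ) * Real.log (w k) - Λ a| ≤ M := by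
    intro a
    simp only [hΛ]
    rw [← Finset.sum_sub_distrib]
    calc |∑ k, (((a k : ℕ) : ℝ) * Real.log (w k) - ((a k : ℕ) : ℝ) * L k)|
        ≤ ∑ k, |((a k : ℕ) : ℝ) * Real.log (w k) - ((a k : ℕ) : ℝ) * L k| := Finset.abs_sum_le_sum_abs _ _
      _ ≤ ∑ _k : Fin m, (d : ℝ) * K := by
          refine Finset.sum_le_sum fun k _ => ?_
          rw [← mul_sub, abs_mul, abs_of_nonneg (Nat.cast_nonneg _)]
          refine mul_le_mul ?_ (hwL k) (abs_nonneg _) (Nat.cast_nonneg _)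
          exact_mod_cast Nat.lt_succ_iff.1 (a k).2
      _ = M := by
          simp [hM]
          ring
  -- the largest monomial
  obtain ⟨⟨a1, l1⟩, he1⟩ := exists_coeffP P hP0 hPd
  have ha1 : pc a1 ≠ 0 := fun h0 => he1 (congrFun h0 l1)
  obtain ⟨a0, ha0, hmax⟩ := Finset.exists_max_image (Finset.univ.filter fun a => pc a ≠ 0) Λ
    ⟨a1, Finset.mem_filter.2 ⟨Finset.mem_univ _, ha1⟩⟩
  have ha0' : pc a0 ≠ 0 := (Finset.mem_filter.1 ha0).2
  have hΛ0 : 0 ≤ Λ a0 := Finset.sum_nonneg fun k _ => mul_nonneg (Nat.cast_nonneg _) (hL k)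
  have hsep : ∀ a, a ≠ a0 → pc a ≠ 0 → Λ a ≤ Λ a0 - (1 + B0 + q / Real.log 2) * h := by
    intro a hne hpa
    have h1 : Λ a ≤ Λ a0 := hmax a (Finset.mem_filter.2 ⟨Finset.mem_univ _, hpa⟩)
    have h2 := hc (fun k => ((a0 k : ℕ) : ℤ) - ((a k : ℕ) : ℤ)) (by
      intro h0
      apply hne
      funext k
      have := congrFun h0 k
      simp only [Pi.zero_apply] at this
      exact Fin.ext (by omega)) (by
      intro k
      have h3 := (a0 k).2
      have h4 := (a k).2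
      rw [abs_le]
      constructor <;> omega)
    have h3 : ∑ k, ((((a0 k : ℕ) : ℤ) - ((a k : ℕ) : ℤ) : ℤ) : ℝ) * L k = Λ a0 - Λ a := by
      simp only [hΛ]
      rw [← Finset.sum_sub_distrib]
      refine Finset.sum_congr rfl fun k _ => ?_
      push_cast
      ring
    rw [h3, abs_of_nonneg (by linarith)] at h2
    linarith
  have hmain : Real.exp (-B0 * h) * Real.exp (Λ a0 - M) ≤ ‖(pa a0 : ℂ) * Ma a0‖ := by
    rw [norm_mul, Complex.norm_real, Real.norm_eq_abs, hnorm]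
    refine mul_le_mul (hlow a0 ha0') (Real.exp_le_exp.2 ?_) (Real.exp_pos _).le (abs_nonneg _)
    have := (abs_le.1 (hdiff a0)).1
    linarith
  have hrest : ∀ a, a ≠ a0 → ‖(pa a : ℂ) * Ma a‖ ≤
      ((d : ℝ) + 1) * 4 ^ d * Real.exp h * Real.exp (Λ a0 - (1 + B0 + q / Real.log 2) * h + M) := by
    intro a hne
    by_cases hpa0 : pc a = 0
    · rw [hzero a hpa0]
      simp only [Complex.ofReal_zero, zero_mul, norm_zero]
      positivity
    · rw [norm_mul, Complex.norm_real, Real.norm_eq_abs, hnorm]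
      refine mul_le_mul (hup a) (Real.exp_le_exp.2 ?_) (Real.exp_pos _).le (by positivity)
      have h1 := (abs_le.1 (hdiff a)).2
      have h2 := hsep a hne hpa0
      linarith
  have hsum : ‖∑ a ∈ Finset.univ.erase a0, (pa a : ℂ) * Ma a‖ ≤ ((d : ℝ) + 1) ^ m *
      (((d : ℝ) + 1) * 4 ^ d * Real.exp h * Real.exp (Λ a0 - (1 + B0 + q / Real.log 2) * h + M)) := by
    refine (norm_sum_le _ _).trans ?_
    refine (Finset.sum_le_card_nsmul _ _ _ fun a ha => hrest a (Finset.ne_of_mem_erase ha)).trans ?_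
    rw [nsmul_eq_mul]
    refine mul_le_mul_of_nonneg_right ?_ (by positivity)
    have h1 : (Finset.univ.erase a0).card ≤ (d + 1) ^ m := by
      refine (Finset.card_le_card (Finset.erase_subset _ _)).trans ?_
      simp
    exact_mod_cast h1
  have hq2 : q ≤ q / Real.log 2 * h := by
    have h6 : 1 ≤ h / Real.log 2 := by rwa [one_le_div hl2]
    have h7 : q / Real.log 2 * h = q * (h / Real.log 2) := by ring
    rw [h7]
    exact le_mul_of_one_le_right hqnn h6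
  have hhalf : ((d : ℝ) + 1) ^ m *
      (((d : ℝ) + 1) * 4 ^ d * Real.exp h * Real.exp (Λ a0 - (1 + B0 + q / Real.log 2) * h + M)) ≤
      Real.exp (-B0 * h) * Real.exp (Λ a0 - M) / 2 := by
    have h1 : Real.exp (Λ a0 - (1 + B0 + q / Real.log 2) * h + M) ≤
        Real.exp (-h) * Real.exp (-B0 * h) * Real.exp (Λ a0 - M) *
          (2 * ((d : ℝ) + 1) ^ m * (((d : ℝ) + 1) * 4 ^ d))⁻¹ := by
      have h2 : (2 * ((d : ℝ) + 1) ^ m * (((d : ℝ) + 1) * 4 ^ d))⁻¹ =
          Real.exp (-Real.log (2 * ((d : ℝ) + 1) ^ m * (((d : ℝ) + 1) * 4 ^ d))) := by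
        rw [Real.exp_neg, Real.exp_log (by linarith)]
      rw [h2, ← Real.exp_add, ← Real.exp_add, ← Real.exp_add]
      refine Real.exp_le_exp.2 ?_
      have h3 : Real.log (2 * ((d : ℝ) + 1) ^ m * (((d : ℝ) + 1) * 4 ^ d)) = q - 2 * M := by
        rw [hq]
        ring
      rw [h3]
      nlinarith
    calc ((d : ℝ) + 1) ^ m *
        (((d : ℝ) + 1) * 4 ^ d * Real.exp h * Real.exp (Λ a0 - (1 + B0 + q / Real.log 2) * h + M))
        ≤ ((d : ℝ) + 1) ^ m * (((d : ℝ) + 1) * 4 ^ d * Real.exp h *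
          (Real.exp (-h) * Real.exp (-B0 * h) * Real.exp (Λ a0 - M) *
          (2 * ((d : ℝ) + 1) ^ m * (((d : ℝ) + 1) * 4 ^ d))⁻¹)) := by
          gcongr
      _ = (Real.exp h * Real.exp (-h)) * (Real.exp (-B0 * h) * Real.exp (Λ a0 - M) / 2) := by
          have : (0 : ℝ) < ((d : ℝ) + 1) ^ m := by positivity
          have : (0 : ℝ) < ((d : ℝ) + 1) * 4 ^ d := by positivity
          field_simp
      _ = Real.exp (-B0 * h) * Real.exp (Λ a0 - M) / 2 := by
          rw [← Real.exp_add, add_neg_cancel, Real.exp_zero, one_mul]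
  rw [hval, ← Finset.add_sum_erase _ _ (Finset.mem_univ a0)]
  have htri := norm_sub_norm_le ((pa a0 : ℂ) * Ma a0) (-∑ a ∈ Finset.univ.erase a0, (pa a : ℂ) * Ma a)
  rw [sub_neg_eq_add, norm_neg] at htri
  have hfin : Real.exp (-(B0 + (M + Real.log 2) / Real.log 2 + 1) * h) <
      Real.exp (-B0 * h) * Real.exp (Λ a0 - M) / 2 := by
    have h1 : Real.exp (-B0 * h) * Real.exp (Λ a0 - M) / 2 = Real.exp (-B0 * h + (Λ a0 - M) - Real.log 2) := by
      rw [Real.exp_sub _ (Real.log 2), Real.exp_add, Real.exp_log (by norm_num)]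
    rw [h1]
    refine Real.exp_lt_exp.2 ?_
    have h2 : M + Real.log 2 ≤ (M + Real.log 2) / Real.log 2 * h := by
      have h6 : 1 ≤ h / Real.log 2 := by rwa [one_le_div hl2]
      have h7 : (M + Real.log 2) / Real.log 2 * h = (M + Real.log 2) * (h / Real.log 2) := by ring
      rw [h7]
      exact le_mul_of_one_le_right (by linarith) h6
    nlinarith
  linarith

end Pool.Agent.TH21.CM
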