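import Mathlib

/-!
# Counting tuples of integers with a small linear combination of powers
-/

set_option autoImplicit false

open Set Filter

namespace Pool.Agent.TH21.CM

theorem pow_gap {r x y : ℝ} (hr : 0 < r) (hr1 : r ≤ 1) (hx : 0 < x) (hxy : x ≤ y) {N : ℝ} (hy : y ≤ N) :
    r * N ^ (r - 1) * (y - x) ≤ y ^ r - x ^ r := by
  have hy0 : 0 < y := hx.trans_le hxy
  have h1 : (1 + (x / y - 1)) ^ r ≤ 1 + r * (x / y - 1) := by
    refine rpow_one_add_le_one_add_mul_self ?_ hr.le hr1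
    have : 0 < x / y := div_pos hx hy0
    linarith
  have h2 : x ^ r = y ^ r * (1 + (x / y - 1)) ^ r := by
    have h3 : 1 + (x / y - 1) = x / y := by ring
    rw [h3, ← Real.mul_rpow hy0.le (div_pos hx hy0).le, mul_div_cancel₀ _ hy0.ne']
  have hyr : 0 < y ^ r := Real.rpow_pos_of_pos hy0 _
  have h4 : x ^ r ≤ y ^ r * (1 + r * (x / y - 1)) := by
    rw [h2]
    exact mul_le_mul_of_nonneg_left h1 hyr.le
  have h5 : y ^ r * (1 + r * (x / y - 1)) = y ^ r - r * y ^ (r - 1) * (y - x) := by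
    rw [Real.rpow_sub_one hy0.ne']
    field_simp
    ring
  have h6 : N ^ (r - 1) ≤ y ^ (r - 1) := Real.rpow_le_rpow_of_nonpos hy0 hy (by linarith)
  have h7 : r * N ^ (r - 1) * (y - x) ≤ r * y ^ (r - 1) * (y - x) := by
    refine mul_le_mul_of_nonneg_right (mul_le_mul_of_nonneg_left h6 hr.le) (by linarith)
  linarith

/-- a set of natural numbers of bounded diameter -/
theorem card_diam (S : Finset ℕ) (Δ : ℝ) (hΔ : 0 ≤ Δ) (h : ∀ x ∈ S, ∀ y ∈ S, x ≤ y → (y : ℝ) - x ≤ Δ) :
    (S.card : ℝ) ≤ Δ + 1 := by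
  rcases S.eq_empty_or_nonempty with h0 | h0
  · rw [h0]
    simp
    linarith
  · have h1 : S ⊆ Finset.Icc (S.min' h0) (S.max' h0) := fun x hx =>
      Finset.mem_Icc.2 ⟨Finset.min'_le _ _ hx, Finset.le_max' _ _ hx⟩
    have h2 := Finset.card_le_card h1
    rw [Nat.card_Icc] at h2
    have h3 : S.min' h0 ≤ S.max' h0 := Finset.min'_le _ _ (Finset.max'_mem _ _)
    have h4 := h _ (Finset.min'_mem S h0) _ (Finset.max'_mem S h0) h3
    have h5 : (S.card : ℝ) ≤ ((S.max' h0 + 1 - S.min' h0 : ℕ) : ℝ) := by exact_mod_cast h2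
    rw [Nat.cast_sub (by omega)] at h5
    push_cast at h5
    linarith

/-- the box -/
def box (m N : ℕ) : Finset (Fin m → ℕ) := Fintype.piFinset fun _ => Finset.Icc 1 N

/-- the fibres of the projection along the `k`-th coordinate -/
theorem card_fibre {m N : ℕ} (k : Fin m) (S : Finset (Fin m → ℕ)) (hS : S ⊆ box m N) (F : ℕ)
    (hF : ∀ T : Finset ℕ, ∀ b : Fin m → ℕ, (∀ n ∈ T, Function.update b k n ∈ S) → T.card ≤ F) :
    S.card ≤ F * N ^ (m - 1) := by
  classical
  set t : Finset (Fin m → ℕ) := Fintype.piFinset fun i => if i = k then {0} else Finset.Icc 1 N with ht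
  have hcard : t.card = N ^ (m - 1) := by
    rw [ht, Fintype.card_piFinset]
    have h1 : ∀ i : Fin m, (if i = k then ({0} : Finset ℕ) else Finset.Icc 1 N).card = if i = k then 1 else N := by
      intro i
      by_cases hi : i = k
      · simp [hi]
      · simp [hi]
    rw [Finset.prod_congr rfl fun i _ => h1 i, Finset.prod_ite, Finset.prod_const, Finset.prod_const, one_pow, one_mul,
      Finset.filter_ne' Finset.univ k, Finset.card_erase_of_mem (Finset.mem_univ k), Finset.card_univ, Fintype.card_fin]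
  have h1 := Finset.card_le_mul_card_image_of_maps_to (s := S) (t := t) (f := fun D => Function.update D k 0) (by
    intro D hD
    rw [ht, Fintype.mem_piFinset]
    intro i
    by_cases hi : i = k
    · subst hi
      simp
    · rw [if_neg hi]
      rw [Function.update_of_ne hi]
      exact Fintype.mem_piFinset.1 (hS hD) i) F (by
    intro b _
    have h2 : (S.filter fun D => Function.update D k 0 = b).card =
        ((S.filter fun D => Function.update D k 0 = b).image fun D => D k).card := by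
      symm
      refine Finset.card_image_of_injOn ?_
      intro D hD D' hD' h
      have e1 := (Finset.mem_filter.1 hD).2
      have e2 := (Finset.mem_filter.1 hD').2
      funext i
      by_cases hi : i = k
      · rw [hi]
        exact h
      · have := congrFun (e1.trans e2.symm) i
        rwa [Function.update_of_ne hi, Function.update_of_ne hi] at this
    rw [h2]
    refine hF _ b ?_
    intro n hn
    obtain ⟨D, hD, rfl⟩ := Finset.mem_image.1 hn
    obtain ⟨hD1, hD2⟩ := Finset.mem_filter.1 hD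
    have : Function.update b k (D k) = D := by
      rw [← hD2, Function.update_idem, Function.update_eq_self]
    rw [this]
    exact hD1)
  rw [hcard] at h1
  exact h1

/-- for one vector of coefficients -/
theorem card_one {m N : ℕ} (hN : 1 ≤ N) (l r : Fin m → ℝ) (ρ : ℝ) (hρ : 0 < ρ) (hr : ∀ k, ρ ≤ r k) (hr1 : ∀ k, r k ≤ 1)
    (l0 : ℝ) (hl0 : 0 < l0) (hl : ∀ k, l0 ≤ l k) (c : Fin m → ℤ) (hc : c ≠ 0) (X : ℝ) (hX : 0 ≤ X)
    (S : Finset (Fin m → ℕ)) (hS : S ⊆ box m N)
    (hSX : ∀ D ∈ S, |∑ k, (c k : ℝ) * (l k * (D k : ℝ) ^ r k)| ≤ X) :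
    (S.card : ℝ) ≤ (2 * X / (l0 * ρ) * (N : ℝ) ^ (1 - ρ) + 2) * (N : ℝ) ^ (m - 1) := by
  obtain ⟨k, hk⟩ := Function.ne_iff.1 hc
  simp only [Pi.zero_apply] at hk
  have hN0 : (1 : ℝ) ≤ N := by exact_mod_cast hN
  have hNp : (0 : ℝ) < N := by linarith
  set Δ : ℝ := 2 * X / (l0 * ρ) * (N : ℝ) ^ (1 - ρ) with hΔ
  have hΔ0 : 0 ≤ Δ := by positivity
  have key := card_fibre k S hS (⌊Δ + 1⌋₊) (by
    intro T b hT
    refine Nat.le_floor (card_diam T Δ hΔ0 ?_)
    intro x hx y hy hxy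
    have hx1 := hSX _ (hT x hx)
    have hy1 := hSX _ (hT y hy)
    have hxb := Fintype.mem_piFinset.1 (hS (hT x hx)) k
    have hyb := Fintype.mem_piFinset.1 (hS (hT y hy)) k
    rw [Function.update_self, Finset.mem_Icc] at hxb hyb
    have hx0 : (0 : ℝ) < x := by exact_mod_cast hxb.1
    have hyN : (y : ℝ) ≤ N := by exact_mod_cast hyb.2
    have hxy' : (x : ℝ) ≤ y := by exact_mod_cast hxy
    have hdiff : (∑ i, (c i : ℝ) * (l i * ((Function.update b k y i : ℕ) : ℝ) ^ r i)) -
        ∑ i, (c i : ℝ) * (l i * ((Function.update b k x i : ℕ) : ℝ) ^ r i) =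
        (c k : ℝ) * l k * ((y : ℝ) ^ r k - (x : ℝ) ^ r k) := by
      rw [← Finset.sum_sub_distrib, Finset.sum_eq_single k]
      · rw [Function.update_self, Function.update_self]
        ring
      · intro i _ hi
        rw [Function.update_of_ne hi, Function.update_of_ne hi]
        ring
      · intro h
        exact absurd (Finset.mem_univ k) h
    have h2 : |(c k : ℝ) * l k * ((y : ℝ) ^ r k - (x : ℝ) ^ r k)| ≤ 2 * X := by
      rw [← hdiff]
      refine (abs_sub _ _).trans ?_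
      linarith
    have hrk : 0 < r k := hρ.trans_le (hr k)
    have hgap := pow_gap hrk (hr1 k) hx0 hxy' hyN
    have hlk : 0 < l k := hl0.trans_le (hl k)
    have hck : (1 : ℝ) ≤ |(c k : ℝ)| := by exact_mod_cast Int.one_le_abs hk
    have h3 : 0 ≤ (y : ℝ) ^ r k - (x : ℝ) ^ r k := by
      have := Real.rpow_le_rpow hx0.le hxy' hrk.le
      linarith
    rw [abs_mul, abs_mul, abs_of_pos hlk, abs_of_nonneg h3] at h2
    have h4 : l0 * ((y : ℝ) ^ r k - (x : ℝ) ^ r k) ≤ 2 * X := by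
      refine le_trans ?_ h2
      refine mul_le_mul_of_nonneg_right ?_ h3
      calc l0 ≤ l k := hl k
        _ ≤ |(c k : ℝ)| * l k := le_mul_of_one_le_left hlk.le hck
    have h5 : (N : ℝ) ^ (ρ - 1) ≤ (N : ℝ) ^ (r k - 1) :=
      Real.rpow_le_rpow_of_exponent_le hN0 (by linarith [hr k])
    have h6 : ρ * (N : ℝ) ^ (ρ - 1) * ((y : ℝ) - x) ≤ r k * (N : ℝ) ^ (r k - 1) * ((y : ℝ) - x) := by
      refine mul_le_mul_of_nonneg_right ?_ (by linarith)
      exact mul_le_mul (hr k) h5 (by positivity) hrk.le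
    have h7 : l0 * (ρ * (N : ℝ) ^ (ρ - 1) * ((y : ℝ) - x)) ≤ 2 * X :=
      le_trans (mul_le_mul_of_nonneg_left (h6.trans hgap) hl0.le) h4
    have h8 : (N : ℝ) ^ (ρ - 1) * (N : ℝ) ^ (1 - ρ) = 1 := by
      rw [← Real.rpow_add hNp]
      simp
    have h9 : (y : ℝ) - x = l0 * (ρ * (N : ℝ) ^ (ρ - 1) * ((y : ℝ) - x)) * ((N : ℝ) ^ (1 - ρ) / (l0 * ρ)) := by
      calc (y : ℝ) - x = 1 * ((y : ℝ) - x) := by ring
        _ = ((N : ℝ) ^ (ρ - 1) * (N : ℝ) ^ (1 - ρ)) * ((y : ℝ) - x) := by rw [h8]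
        _ = _ := by field_simp
    rw [h9, hΔ]
    refine (mul_le_mul_of_nonneg_right h7 (by positivity)).trans (le_of_eq ?_)
    ring)
  have h10 : (S.card : ℝ) ≤ ((⌊Δ + 1⌋₊ : ℕ) : ℝ) * (N : ℝ) ^ (m - 1) := by exact_mod_cast key
  refine h10.trans (mul_le_mul_of_nonneg_right ?_ (by positivity))
  have := Nat.floor_le (show (0 : ℝ) ≤ Δ + 1 by linarith)
  linarith

/-- one coordinate is small -/
theorem card_small {m N : ℕ} (n0 : ℕ) (k : Fin m) (S : Finset (Fin m → ℕ)) (hS : S ⊆ box m N)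
    (hn : ∀ D ∈ S, D k < n0) : S.card ≤ n0 * N ^ (m - 1) := by
  refine card_fibre k S hS n0 ?_
  intro T b hT
  have h1 : T ⊆ Finset.range n0 := by
    intro n hn'
    have := hn _ (hT n hn')
    rw [Function.update_self] at this
    exact Finset.mem_range.2 this
  simpa using Finset.card_le_card h1

end Pool.Agent.TH21.CM
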