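import Pool.Agent.TH21.CM.Core
import Pool.Agent.TH21.CM.Count

/-!
# `π` and the values of `j'` (or `j`) at almost all tuples of points `i s_k D_k ^ r_k`
-/

set_option autoImplicit false

open Set Filter Topology

namespace Pool.Agent.TH21.CM

open Pool.Agent.TH21.MS

/-- `j (z)` or `j' (z)` -/
noncomputable def val (b : Bool) (z : ℂ) : ℂ := if b then deriv jj z else jj z

/-- the real functions -/
noncomputable def gb (b : Bool) (y : ℝ) : ℝ := if b then g1 y else g0 y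

/-- the factors -/
noncomputable def eb (b : Bool) : ℂ := if b then -Complex.I else 1

theorem norm_eb (b : Bool) : ‖eb b‖ = 1 := by
  cases b <;> simp [eb]

theorem val_I (b : Bool) (y : ℝ) (hy : 0 < y) : val b (Complex.I * y) = eb b * ((gb b y : ℝ) : ℂ) := by
  cases b
  · simp only [val, eb, gb, Bool.false_eq_true, if_false, one_mul]
    exact jj_I y
  · simp only [val, eb, gb, if_true]
    exact jj_deriv y hy

theorem gb_log : ∃ y0 K : ℝ, 0 ≤ K ∧ ∀ b y, y0 ≤ y → 0 < gb b y ∧ |Real.log (gb b y) - 2 * Real.pi * y| ≤ K := by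
  obtain ⟨y0, -, h0⟩ := g0_log
  obtain ⟨y1, -, h1⟩ := g1_log
  have hpi : 1 ≤ 4 * Real.pi := by
    have := Real.pi_gt_three
    linarith
  have hlog : 0 ≤ Real.log (4 * Real.pi) := Real.log_nonneg hpi
  refine ⟨max y0 y1, 1 + Real.log (4 * Real.pi), by positivity, ?_⟩
  intro b y hy
  cases b
  · obtain ⟨h2, h3⟩ := h0 y ((le_max_left _ _).trans hy)
    exact ⟨h2, h3.trans (by linarith)⟩
  · obtain ⟨h2, h3⟩ := h1 y ((le_max_right _ _).trans hy)
    exact ⟨h2, h3.trans (by linarith)⟩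

/-- the numbers -/
noncomputable def numC {m : ℕ} (b : Fin m → Bool) (s r : Fin m → ℝ) (D : Fin m → ℕ) (i : Option (Fin m)) : ℂ :=
  i.elim (Real.pi : ℂ) fun k => val (b k) (Complex.I * ((s k * (D k : ℝ) ^ r k : ℝ) : ℂ))

/-- the exceptional tuples -/
def ExcC {m : ℕ} (d : ℕ) (b : Fin m → Bool) (s r : Fin m → ℝ) (B : ℝ) (N : ℕ) (H : ℝ) : Set (Fin m → ℕ) :=
  {D | (∀ k, 1 ≤ D k ∧ D k ≤ N) ∧ ∃ P : MvPolynomial (Option (Fin m)) ℤ, P ≠ 0 ∧ (∀ i, P.degreeOf i ≤ d) ∧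
    (∀ e, |((P.coeff e : ℤ) : ℝ)| ≤ H) ∧ ‖MvPolynomial.aeval (numC b s r D) P‖ ≤ H ^ (-B)}

theorem cmmain (m d : ℕ) (hm : 1 ≤ m) (b : Fin m → Bool) (s r : Fin m → ℝ) (ρ : ℝ) (hρ : 0 < ρ) (hρ1 : ρ ≤ 1)
    (hs : ∀ k, 0 < s k) (hr : ∀ k, ρ ≤ r k) (hr1 : ∀ k, r k ≤ 1) :
    ∃ B C : ℝ, ∀ (N : ℕ) (H : ℝ), 1 ≤ N → 2 ≤ H → (ExcC d b s r B N H).Finite ∧
      ((ExcC d b s r B N H).ncard : ℝ) ≤ C * (N : ℝ) ^ ((m : ℝ) - ρ) * Real.log H := by
  classical
  obtain ⟨y0, K, hK, hg⟩ := gb_log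
  obtain ⟨B, X, hX, hcore⟩ := core m d K hK
  have hl2 : 0 < Real.log 2 := Real.log_pos (by norm_num)
  -- the small integers
  have hev : ∀ᶠ n : ℕ in atTop, ∀ k, y0 ≤ s k * (n : ℝ) ^ r k := by
    refine eventually_all.2 fun k => ?_
    have h1 : Tendsto (fun n : ℕ => s k * (n : ℝ) ^ r k) atTop atTop :=
      ((tendsto_rpow_atTop (hρ.trans_le (hr k))).comp tendsto_natCast_atTop_atTop).const_mul_atTop (hs k)
    exact h1.eventually_ge_atTop y0
  obtain ⟨n0, hn0⟩ := eventually_atTop.1 hev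
  -- a lower bound for the factors
  set l : Fin m → ℝ := fun k => 2 * Real.pi * s k with hl
  have hlpos : ∀ k, 0 < l k := fun k => mul_pos (by positivity) (hs k)
  set l0 : ℝ := (∑ k, 1 / l k + 1)⁻¹ with hl0
  have hsum0 : 0 ≤ ∑ k, 1 / l k := Finset.sum_nonneg fun k _ => (one_div_pos.2 (hlpos k)).le
  have hl0pos : 0 < l0 := inv_pos.2 (by linarith)
  have hl0le : ∀ k, l0 ≤ l k := by
    intro k
    have h1 : 1 / l k ≤ ∑ k, 1 / l k :=
      Finset.single_le_sum (f := fun k => 1 / l k) (fun k _ => (one_div_pos.2 (hlpos k)).le) (Finset.mem_univ k)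
    rw [hl0]
    rw [inv_le_comm₀ (by linarith) (hlpos k), ← one_div]
    linarith
  refine ⟨B, (m * n0) / Real.log 2 + (2 * d + 1) ^ m * (2 * X / (l0 * ρ) + 2 / Real.log 2), ?_⟩
  intro N H hN hH
  set h : ℝ := Real.log H with hh
  have hH0 : 0 < H := by linarith
  have hHe : H = Real.exp h := (Real.exp_log hH0).symm
  have hh2 : Real.log 2 ≤ h := Real.log_le_log (by norm_num) hH
  have hh0 : 0 < h := hl2.trans_le hh2
  have hN0 : (1 : ℝ) ≤ N := by exact_mod_cast hN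
  have hNp : (0 : ℝ) < N := by linarith
  set U1 : Finset (Fin m → ℕ) := Finset.univ.biUnion fun k : Fin m => (box m N).filter fun D => D k < n0 with hU1
  set CC : Finset (Fin m → ℤ) := (Fintype.piFinset fun _ : Fin m => Finset.Icc (-(d : ℤ)) d).filter (· ≠ 0) with hCC
  set U2 : Finset (Fin m → ℕ) := CC.biUnion fun c => (box m N).filter fun D =>
    |∑ k, (c k : ℝ) * (l k * (D k : ℝ) ^ r k)| ≤ X * h with hU2
  have hsub : ExcC d b s r B N H ⊆ ((U1 ∪ U2 : Finset (Fin m → ℕ)) : Set (Fin m → ℕ)) := by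
    rintro D ⟨hD, P, hP0, hPd, hPc, hPs⟩
    have hDbox : D ∈ box m N := Fintype.mem_piFinset.2 fun k => Finset.mem_Icc.2 (hD k)
    rw [Finset.mem_coe, Finset.mem_union]
    by_contra hcon
    push Not at hcon
    obtain ⟨hc1, hc2⟩ := hcon
    have hlarge : ∀ k, n0 ≤ D k := by
      intro k
      by_contra hlt
      push Not at hlt
      exact hc1 (Finset.mem_biUnion.2 ⟨k, Finset.mem_univ k, Finset.mem_filter.2 ⟨hDbox, hlt⟩⟩)
    have hsep : ∀ c : Fin m → ℤ, c ≠ 0 → (∀ k, |c k| ≤ d) → X * h < |∑ k, (c k : ℝ) * (l k * (D k : ℝ) ^ r k)| := by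
      intro c hc hcd
      by_contra hle
      push Not at hle
      refine hc2 (Finset.mem_biUnion.2 ⟨c, Finset.mem_filter.2 ⟨Fintype.mem_piFinset.2 fun k => ?_, hc⟩,
        Finset.mem_filter.2 ⟨hDbox, hle⟩⟩)
      rw [Finset.mem_Icc]
      exact abs_le.1 (hcd k)
    have hy : ∀ k, y0 ≤ s k * (D k : ℝ) ^ r k := fun k => hn0 (D k) (hlarge k) k
    have hypos : ∀ k, 0 < s k * (D k : ℝ) ^ r k := fun k =>
      mul_pos (hs k) (Real.rpow_pos_of_pos (by exact_mod_cast (hD k).1) _)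
    have key := hcore h hh2 (fun k => l k * (D k : ℝ) ^ r k) (fun k => gb (b k) (s k * (D k : ℝ) ^ r k))
      (fun k => eb (b k)) (fun k => (hg (b k) _ (hy k)).1) (fun k => by
        have h1 := (hg (b k) _ (hy k)).2
        have h2 : 2 * Real.pi * (s k * (D k : ℝ) ^ r k) = l k * (D k : ℝ) ^ r k := by
          simp only [hl]
          ring
        rwa [h2] at h1) (fun k => (mul_pos (hlpos k) (Real.rpow_pos_of_pos (by exact_mod_cast (hD k).1) _)).le)
      (fun k => norm_eb (b k)) hsep P hP0 hPd (fun e => by rw [← hHe]; exact hPc e)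
    have hnum : numC b s r D = fun i : Option (Fin m) => i.elim (Real.pi : ℂ) fun k =>
        eb (b k) * ((gb (b k) (s k * (D k : ℝ) ^ r k) : ℝ) : ℂ) := by
      funext i
      cases i with
      | none => rfl
      | some k => exact val_I (b k) _ (hypos k)
    rw [hnum] at hPs
    have h3 : H ^ (-B) = Real.exp (-B * h) := by
      rw [Real.rpow_def_of_pos hH0, mul_comm]
    rw [h3] at hPs
    exact absurd key (not_lt.2 hPs)
  refine ⟨(Finset.finite_toSet _).subset hsub, ?_⟩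
  have hcard1 : (U1.card : ℝ) ≤ m * (n0 * (N : ℝ) ^ (m - 1)) := by
    have h1 : U1.card ≤ ∑ _k : Fin m, n0 * N ^ (m - 1) := by
      refine Finset.card_biUnion_le.trans (Finset.sum_le_sum fun k _ => ?_)
      exact card_small n0 k _ (Finset.filter_subset _ _) fun D hD => (Finset.mem_filter.1 hD).2
    have h2 : ∑ _k : Fin m, n0 * N ^ (m - 1) = m * (n0 * N ^ (m - 1)) := by simp
    rw [h2] at h1
    exact_mod_cast h1
  have hCCcard : (CC.card : ℝ) ≤ (2 * d + 1) ^ m := by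
    have h1 : CC.card ≤ (2 * d + 1) ^ m := by
      refine (Finset.card_filter_le _ _).trans ?_
      rw [Fintype.card_piFinset]
      simp only [Int.card_Icc, Finset.prod_const, Finset.card_univ, Fintype.card_fin]
      refine Nat.pow_le_pow_left ?_ m
      omega
    exact_mod_cast h1
  have hcard2 : (U2.card : ℝ) ≤ (2 * d + 1) ^ m *
      ((2 * (X * h) / (l0 * ρ) * (N : ℝ) ^ (1 - ρ) + 2) * (N : ℝ) ^ (m - 1)) := by
    have h0 : 0 ≤ (2 * (X * h) / (l0 * ρ) * (N : ℝ) ^ (1 - ρ) + 2) * (N : ℝ) ^ (m - 1) := by positivity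
    have h1 : (U2.card : ℝ) ≤ ∑ c ∈ CC, (((box m N).filter fun D =>
        |∑ k, (c k : ℝ) * (l k * (D k : ℝ) ^ r k)| ≤ X * h).card : ℝ) := by
      exact_mod_cast Finset.card_biUnion_le
    have h2 : ∑ c ∈ CC, (((box m N).filter fun D =>
        |∑ k, (c k : ℝ) * (l k * (D k : ℝ) ^ r k)| ≤ X * h).card : ℝ) ≤ ∑ _c ∈ CC,
          (2 * (X * h) / (l0 * ρ) * (N : ℝ) ^ (1 - ρ) + 2) * (N : ℝ) ^ (m - 1) := by
      refine Finset.sum_le_sum fun c hc => ?_
      exact card_one hN l r ρ hρ hr hr1 l0 hl0pos hl0le c (Finset.mem_filter.1 hc).2 (X * h) (by positivity) _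
        (Finset.filter_subset _ _) fun D hD => (Finset.mem_filter.1 hD).2
    rw [Finset.sum_const, nsmul_eq_mul] at h2
    exact h1.trans (h2.trans (mul_le_mul_of_nonneg_right hCCcard h0))
  have hpow1 : (N : ℝ) ^ (1 - ρ) * (N : ℝ) ^ (m - 1) = (N : ℝ) ^ ((m : ℝ) - ρ) := by
    rw [← Real.rpow_natCast (N : ℝ) (m - 1), ← Real.rpow_add hNp, Nat.cast_sub hm]
    congr 1
    push_cast
    ring
  have hpow2 : (N : ℝ) ^ (m - 1) ≤ (N : ℝ) ^ ((m : ℝ) - ρ) := by
    rw [← hpow1]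
    refine le_mul_of_one_le_left (by positivity) ?_
    exact Real.one_le_rpow hN0 (by linarith)
  have hh1 : 1 ≤ h / Real.log 2 := by rwa [one_le_div hl2]
  have hn1 : ((ExcC d b s r B N H).ncard : ℝ) ≤ (U1.card : ℝ) + U2.card := by
    have h1 := Set.ncard_le_ncard hsub (Finset.finite_toSet _)
    rw [Set.ncard_coe_finset] at h1
    have h2 := h1.trans (Finset.card_union_le U1 U2)
    exact_mod_cast h2
  set Q : ℝ := (N : ℝ) ^ ((m : ℝ) - ρ) with hQ
  have hQ0 : 0 < Q := Real.rpow_pos_of_pos hNp _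
  have hA : (m : ℝ) * (n0 * (N : ℝ) ^ (m - 1)) ≤ (m * n0) / Real.log 2 * Q * h := by
    calc (m : ℝ) * (n0 * (N : ℝ) ^ (m - 1)) = (m * n0) * (N : ℝ) ^ (m - 1) * 1 := by ring
      _ ≤ (m * n0) * Q * (h / Real.log 2) := by
          refine mul_le_mul (mul_le_mul_of_nonneg_left hpow2 (by positivity)) hh1 zero_le_one (by positivity)
      _ = (m * n0) / Real.log 2 * Q * h := by ring
  have hB : ((2 * X * h) / (l0 * ρ) * (N : ℝ) ^ (1 - ρ) + 2) * (N : ℝ) ^ (m - 1) ≤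
      (2 * X / (l0 * ρ) + 2 / Real.log 2) * Q * h := by
    have h1 : 2 * (N : ℝ) ^ (m - 1) ≤ 2 / Real.log 2 * Q * h := by
      calc 2 * (N : ℝ) ^ (m - 1) = 2 * (N : ℝ) ^ (m - 1) * 1 := by ring
        _ ≤ 2 * Q * (h / Real.log 2) :=
            mul_le_mul (mul_le_mul_of_nonneg_left hpow2 (by positivity)) hh1 zero_le_one (by positivity)
        _ = 2 / Real.log 2 * Q * h := by ring
    calc ((2 * X * h) / (l0 * ρ) * (N : ℝ) ^ (1 - ρ) + 2) * (N : ℝ) ^ (m - 1)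
        = (2 * X * h) / (l0 * ρ) * ((N : ℝ) ^ (1 - ρ) * (N : ℝ) ^ (m - 1)) + 2 * (N : ℝ) ^ (m - 1) := by ring
      _ ≤ (2 * X * h) / (l0 * ρ) * Q + 2 / Real.log 2 * Q * h := by
          rw [hpow1]
          linarith
      _ = (2 * X / (l0 * ρ) + 2 / Real.log 2) * Q * h := by ring
  calc ((ExcC d b s r B N H).ncard : ℝ) ≤ (U1.card : ℝ) + U2.card := hn1
    _ ≤ m * (n0 * (N : ℝ) ^ (m - 1)) + (2 * d + 1) ^ m *
        ((2 * (X * h) / (l0 * ρ) * (N : ℝ) ^ (1 - ρ) + 2) * (N : ℝ) ^ (m - 1)) := add_le_add hcard1 hcard2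
    _ ≤ (m * n0) / Real.log 2 * Q * h + (2 * d + 1) ^ m * ((2 * X / (l0 * ρ) + 2 / Real.log 2) * Q * h) := by
        refine add_le_add hA (mul_le_mul_of_nonneg_left ?_ (by positivity))
        have : 2 * (X * h) = 2 * X * h := by ring
        rw [this]
        exact hB
    _ = ((m * n0) / Real.log 2 + (2 * d + 1) ^ m * (2 * X / (l0 * ρ) + 2 / Real.log 2)) * Q * h := by ring

end Pool.Agent.TH21.CM
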